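import Mathlib
import Pool.Agent.H902R2.PerfWtr

set_option autoImplicit false

/-!
# Perfect images of weakly theta-refinable spaces are weakly theta-refinable
-/

open Set Topology

namespace Pool.Agent.Results.MP_55e6a3_gt.PerfectImage

universe u v

/-- A topological space is weakly theta-refinable if every open cover `𝒰` has an open refinement
which is the union of families `V n` (`n` a natural number) of open sets such that every point
`x` lies in at least one and only finitely many members of some `V n`. -/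
def WeaklyThetaRefinable (X : Type u) [TopologicalSpace X] : Prop :=
  ∀ 𝒰 : Set (Set X), (∀ U ∈ 𝒰, IsOpen U) → ⋃₀ 𝒰 = univ →
    ∃ V : ℕ → Set (Set X), (∀ n, ∀ v ∈ V n, IsOpen v ∧ ∃ U ∈ 𝒰, v ⊆ U) ∧
      ∀ x, ∃ n, {v | v ∈ V n ∧ x ∈ v}.Nonempty ∧ {v | v ∈ V n ∧ x ∈ v}.Finite

/-- points of order at least `k` -/
def Gk {X : Type u} (V : Set (Set X)) (k : ℕ) : Set X :=
  {x | ∃ s : Finset (Set X), (s : Set (Set X)) ⊆ V ∧ s.card = k ∧ ∀ v ∈ s, x ∈ v}

theorem isOpen_Gk {X : Type u} [TopologicalSpace X] {V : Set (Set X)} (hV : ∀ v ∈ V, IsOpen v)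
    (k : ℕ) : IsOpen (Gk V k) := by
  have : Gk V k = ⋃ s ∈ {s : Finset (Set X) | (s : Set (Set X)) ⊆ V ∧ s.card = k},
      ⋂ v ∈ s, v := by
    ext x
    simp only [Gk, mem_ofPred_eq, mem_iUnion, mem_iInter, exists_prop, and_assoc]
  rw [this]
  exact isOpen_biUnion fun s hs => isOpen_biInter_finset fun v hv => hV v (hs.1 hv)

theorem Gk_succ {X : Type u} {V : Set (Set X)} {k l : ℕ} (h : k ≤ l) : Gk V l ⊆ Gk V k := by
  classical
  rintro x ⟨s, hs, hk, hx⟩
  obtain ⟨t, ht, htk⟩ := Finset.exists_subset_card_eq (hk ▸ h : k ≤ s.card)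
  exact ⟨t, (Finset.coe_subset.mpr ht).trans hs, htk, fun v hv => hx v (ht hv)⟩

/-- Every perfect image (image under a continuous closed surjection with compact fibres) of a
weakly theta-refinable space is weakly theta-refinable; no separation axioms are assumed. -/
theorem result {X : Type u} {Y : Type v} [TopologicalSpace X] [TopologicalSpace Y]
    (hX : WeaklyThetaRefinable X) (f : X → Y) (hf : Continuous f) (hs : Function.Surjective f)
    (hc : IsClosedMap f) (hk : ∀ y : Y, IsCompact (f ⁻¹' {y})) : WeaklyThetaRefinable Y := by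
  classical
  intro 𝒰 h𝒰o h𝒰c
  obtain ⟨V, hV, hV2⟩ := hX ((fun U => f ⁻¹' U) '' 𝒰) (by
    rintro _ ⟨U, hU, rfl⟩
    exact (h𝒰o U hU).preimage hf) (by
    rw [eq_univ_iff_forall]
    intro x
    have : f x ∈ ⋃₀ 𝒰 := by rw [h𝒰c]; trivial
    obtain ⟨U, hU, hxU⟩ := this
    exact ⟨_, ⟨U, hU, rfl⟩, hxU⟩)
  let G : ℕ × ℕ → Set X := fun j => Gk (V j.1) (j.2 + 1)
  let G' : ℕ × ℕ → Set X := fun j => Gk (V j.1) (j.2 + 2)
  let I : ℕ × ℕ → Type u := fun j => {s : Finset (Set X) // (s : Set (Set X)) ⊆ V j.1 ∧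
    s.card = j.2 + 1}
  have hsel : ∀ j (i : I j), ∃ U ∈ 𝒰, ∃ v ∈ i.1, v ⊆ f ⁻¹' U := by
    intro j i
    have hne : i.1.Nonempty := by
      rw [← Finset.card_pos, i.2.2]
      exact Nat.succ_pos _
    obtain ⟨v, hv⟩ := hne
    obtain ⟨-, _, ⟨U, hU, rfl⟩, hvU⟩ := hV j.1 v (i.2.1 hv)
    exact ⟨U, hU, v, hv, hvU⟩
  choose U hU v hv hvU using hsel
  obtain ⟨V', h1, h2⟩ := Pool.Agent.H902R2.PerfWtr.main G G'
    (fun j => isOpen_Gk (fun v hv => (hV j.1 v hv).1) _)
    (fun j => isOpen_Gk (fun v hv => (hV j.1 v hv).1) _)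
    (fun j => Gk_succ (Nat.le_succ _))
    (by
      intro x
      obtain ⟨n, hn1, hn2⟩ := hV2 x
      have hcard : 0 < hn2.toFinset.card := by
        rw [Finset.card_pos]
        obtain ⟨v, hv⟩ := hn1
        exact ⟨v, hn2.mem_toFinset.mpr hv⟩
      refine ⟨(n, hn2.toFinset.card - 1), ⟨hn2.toFinset, ?_, ?_, ?_⟩, ?_⟩
      · intro v hv
        exact (hn2.mem_toFinset.mp hv).1
      · simp only
        omega
      · intro v hv
        exact (hn2.mem_toFinset.mp hv).2
      · rintro ⟨s, hs1, hs2, hs3⟩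
        have : s ⊆ hn2.toFinset := fun v hv => hn2.mem_toFinset.mpr ⟨hs1 hv, hs3 v hv⟩
        have := Finset.card_le_card this
        simp only at hs2
        omega)
    I (fun j i => ⋂ v ∈ i.1, v)
    (fun j i => isOpen_biInter_finset fun v hv => (hV j.1 v (i.2.1 hv)).1)
    (by
      rintro j x ⟨s, hs1, hs2, hs3⟩ -
      exact ⟨⟨s, hs1, hs2⟩, mem_iInter₂.mpr hs3⟩)
    (by
      intro j x hx i i' hi hi'
      by_contra hne
      apply hx
      have hne' : i.1 ≠ i'.1 := fun h => hne (Subtype.ext h)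
      have hnsub : ¬ i'.1 ⊆ i.1 := by
        intro h
        exact hne' (Finset.eq_of_subset_of_card_le h (by rw [i.2.2, i'.2.2])).symm
      obtain ⟨w, hw, hw2⟩ := Finset.not_subset.mp hnsub
      refine ⟨insert w i.1, ?_, ?_, ?_⟩
      · rw [Finset.coe_insert, insert_subset_iff]
        exact ⟨i'.2.1 hw, i.2.1⟩
      · rw [Finset.card_insert_of_notMem hw2, i.2.2]
      · intro v hv
        rcases Finset.mem_insert.mp hv with rfl | h
        · exact mem_iInter₂.mp hi' _ hw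
        · exact mem_iInter₂.mp hi _ h)
    f hs hc hk U (fun j i => h𝒰o _ (hU j i))
    (fun j i => (biInter_subset_of_mem (hv j i)).trans (hvU j i))
  refine ⟨V', fun n w hw => ⟨(h1 n w hw).1, ?_⟩, h2⟩
  obtain ⟨j, i, hji⟩ := (h1 n w hw).2
  exact ⟨_, hU j i, hji⟩

end Pool.Agent.Results.MP_55e6a3_gt.PerfectImage
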